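import Pool.Agent.Helper20.IIC.Stmts

/-! # BK: uniqueness of the infinite cluster (IIC project) -/

namespace IIC

open Filter Topology Set MeasureTheory
open scoped BigOperators ENNReal

variable {d : ℕ}

/-! ## Connections -/

theorem bk_step_symm {V E : Type} {ends : E → Sym2 V} {T : Set E} {x y : V}
    (h : Step ends T x y) : Step ends T y x := by
  obtain ⟨e, he, h⟩ := h
  exact ⟨e, he, by rw [h, Sym2.eq_swap]⟩

theorem bk_conn_symm {V E : Type} {ends : E → Sym2 V} {T : Set E} {x y : V}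
    (h : Conn ends T x y) : Conn ends T y x := by
  induction h with
  | refl => exact Relation.ReflTransGen.refl
  | tail _ h2 ih => exact Relation.ReflTransGen.head (bk_step_symm h2) ih

theorem bk_conn_mono {V E : Type} {ends : E → Sym2 V} {T T' : Set E} (hT : T ⊆ T') {x y : V}
    (h : Conn ends T x y) : Conn ends T' x y := by
  refine Relation.ReflTransGen.mono (fun a b hab => ?_) _ _ h
  obtain ⟨e, he, h⟩ := hab
  exact ⟨e, hT he, h⟩

theorem bk_conn_fin {V E : Type} [DecidableEq E] {ends : E → Sym2 V} {T : Set E} {x y : V}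
    (h : Conn ends T x y) : ∃ B : Finset E, Conn ends (B : Set E) x y := by
  induction h with
  | refl => exact ⟨∅, Relation.ReflTransGen.refl⟩
  | tail _ h2 ih =>
    obtain ⟨B, hB⟩ := ih
    obtain ⟨e, _, he⟩ := h2
    refine ⟨insert e B, (bk_conn_mono (by simp) hB).tail ⟨e, by simp, he⟩⟩

open Classical in
/-- Open the edges of `B`. -/
noncomputable def bkOp (B : Finset (Ed d)) (ω : Cfg d) : Cfg d := fun e => if e ∈ B then true else ω e

theorem bk_op_meas (B : Finset (Ed d)) : Measurable (bkOp B) := by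
  classical
  refine measurable_pi_lambda _ fun e => ?_
  by_cases h : e ∈ B
  · simp only [bkOp, h, if_true]
    exact measurable_const
  · simp only [bkOp, h, if_false]
    exact measurable_pi_apply e

theorem bk_op_mem {B : Finset (Ed d)} {ω : Cfg d} {e : Ed d} :
    e ∈ op (bkOp B ω) ↔ e ∈ B ∨ e ∈ op ω := by
  classical
  show bkOp B ω e = true ↔ e ∈ B ∨ ω e = true
  simp only [bkOp]
  by_cases h : e ∈ B <;> simp [h]

theorem bk_cover (B : Finset (Ed d)) (ω : Cfg d) (z u : Fin d → ℤ) (h : LConn (bkOp B ω) z u) :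
    ∃ v : Fin d → ℤ, (v = z ∨ v ∈ vts B) ∧ LConn (bkOp B ω) z v ∧ LConn ω v u := by
  classical
  induction h with
  | refl => exact ⟨z, Or.inl rfl, Relation.ReflTransGen.refl, Relation.ReflTransGen.refl⟩
  | @tail b c h1 h2 ih =>
    obtain ⟨v, hv, hzv, hvb⟩ := ih
    obtain ⟨e, he, hbc⟩ := h2
    rw [bk_op_mem] at he
    rcases he with he | he
    · refine ⟨c, Or.inr ?_, h1.tail ⟨e, bk_op_mem.2 (Or.inl he), hbc⟩,
        Relation.ReflTransGen.refl⟩
      unfold vts
      rw [Finset.mem_biUnion]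
      refine ⟨e, he, ?_⟩
      rw [Sym2.mem_toFinset, hbc]
      exact Sym2.mem_mk_right _ _
    · exact ⟨v, hv, hzv, hvb.tail ⟨e, he, hbc⟩⟩

theorem bk_infin (B : Finset (Ed d)) (ω : Cfg d) (z : Fin d → ℤ) (h : Infin (bkOp B ω) z) :
    ∃ w : Fin d → ℤ, LConn (bkOp B ω) z w ∧ Infin ω w := by
  classical
  by_contra hcon
  push Not at hcon
  apply h
  have h1 : {y | LConn (bkOp B ω) z y} ⊆
      ⋃ v ∈ ({v | (v = z ∨ v ∈ vts B) ∧ LConn (bkOp B ω) z v} : Set (Fin d → ℤ)),
        {y | LConn ω v y} := by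
    intro u hu
    obtain ⟨v, hv, hzv, hvu⟩ := bk_cover B ω z u hu
    rw [mem_iUnion₂]
    exact ⟨v, ⟨hv, hzv⟩, hvu⟩
  refine Finite.subset (Finite.biUnion ?_ fun v hv => ?_) h1
  · refine Finite.subset ((finite_singleton z).union (vts B).finite_toSet) ?_
    rintro v ⟨hv | hv, _⟩
    · exact Or.inl hv
    · exact Or.inr hv
  · have h2 := hcon v hv.2
    exact not_infinite.1 h2

theorem bk_merge (B : Finset (Ed d)) (ω : Cfg d) (x y : Fin d → ℤ) (hB : Conn le (B : Set (Ed d)) x y)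
    (hx : Infin ω x) (hy : Infin ω y) (hxy : ¬ LConn ω x y) (h3 : ¬ Three ω) :
    ¬ TwoInf (bkOp B ω) := by
  rintro ⟨a, b, ha, hb, hab⟩
  have hmono : ∀ {u v}, LConn ω u v → LConn (bkOp B ω) u v := fun h =>
    bk_conn_mono (fun e he => bk_op_mem.2 (Or.inr he)) h
  have hxy' : LConn (bkOp B ω) x y := bk_conn_mono (fun e he => bk_op_mem.2 (Or.inl he)) hB
  have key : ∀ z, Infin (bkOp B ω) z → LConn (bkOp B ω) z x := by
    intro z hz
    obtain ⟨w, hzw, hw⟩ := bk_infin B ω z hz
    by_cases h1 : LConn ω x w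
    · exact hzw.trans (bk_conn_symm (hmono h1))
    by_cases h2 : LConn ω y w
    · exact hzw.trans ((bk_conn_symm (hmono h2)).trans (bk_conn_symm hxy'))
    exfalso
    apply h3
    refine ⟨![x, y, w], ?_, ?_⟩
    · intro i
      fin_cases i
      · exact hx
      · exact hy
      · exact hw
    · intro i j hij
      fin_cases i <;> fin_cases j
      · exact absurd rfl hij
      · exact hxy
      · exact h1
      · exact fun h => hxy (bk_conn_symm h)
      · exact absurd rfl hij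
      · exact h2
      · exact fun h => h1 (bk_conn_symm h)
      · exact fun h => h2 (bk_conn_symm h)
      · exact absurd rfl hij
  exact hab ((key a ha).trans (bk_conn_symm (key b hb)))

/-! ## Automorphisms -/

theorem bk_conn_pb (hINV : ST_INV) (g : lat d ≃g lat d) (ω : Cfg d) (x y : Fin d → ℤ) :
    LConn (pb g ω) x y ↔ LConn ω (g x) (g y) := by
  have h := (hINV d g).2.1 x y
  have h2 : ω ∈ pb g ⁻¹' CN x y ↔ ω ∈ CN (g x) (g y) := by rw [h]
  exact h2

theorem bk_inf_pb (hINV : ST_INV) (g : lat d ≃g lat d) (ω : Cfg d) (x : Fin d → ℤ) :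
    Infin (pb g ω) x ↔ Infin ω (g x) := by
  have h := (hINV d g).2.2.1 x
  have h2 : ω ∈ pb g ⁻¹' IN x ↔ ω ∈ IN (g x) := by rw [h]
  exact h2

theorem bk_two_pb (hINV : ST_INV) (g : lat d ≃g lat d) :
    pb g ⁻¹' {ω : Cfg d | TwoInf ω} = {ω : Cfg d | TwoInf ω} := by
  ext ω
  constructor
  · rintro ⟨x, y, hx, hy, hxy⟩
    exact ⟨g x, g y, (bk_inf_pb hINV g ω x).1 hx, (bk_inf_pb hINV g ω y).1 hy,
      fun h => hxy ((bk_conn_pb hINV g ω x y).2 h)⟩
  · rintro ⟨x, y, hx, hy, hxy⟩
    refine ⟨g.symm x, g.symm y, (bk_inf_pb hINV g ω _).2 ?_, (bk_inf_pb hINV g ω _).2 ?_,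
      fun h => hxy ?_⟩
    · rw [g.apply_symm_apply]
      exact hx
    · rw [g.apply_symm_apply]
      exact hy
    · have := (bk_conn_pb hINV g ω _ _).1 h
      rwa [g.apply_symm_apply, g.apply_symm_apply] at this

theorem bk_clo_pb (g : lat d ≃g lat d) (v : Fin d → ℤ) (ω : Cfg d) :
    clo v (pb g ω) = pb g (clo (g v) ω) := by
  classical
  funext e
  show (if v ∈ le e then false else ω (g.mapEdgeSet e)) =
    if g v ∈ le (g.mapEdgeSet e) then false else ω (g.mapEdgeSet e)
  have h : v ∈ le e ↔ g v ∈ le (g.mapEdgeSet e) := by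
    show v ∈ le e ↔ g v ∈ Sym2.map g (le e)
    rw [Sym2.mem_map]
    constructor
    · intro h
      exact ⟨v, h, rfl⟩
    · rintro ⟨w, hw, hwv⟩
      have : w = v := g.injective hwv
      rw [← this]
      exact hw
  by_cases h2 : v ∈ le e
  · rw [if_pos h2, if_pos (h.1 h2)]
  · rw [if_neg h2, if_neg (fun h3 => h2 (h.2 h3))]

theorem bk_tri_pb (hINV : ST_INV) (g : lat d ≃g lat d) (v : Fin d → ℤ) (ω : Cfg d)
    (h : Tri v (pb g ω)) : Tri (g v) ω := by
  obtain ⟨a, h1, h2, h3⟩ := h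
  refine ⟨fun i => g (a i), fun i => ?_, fun i => ?_, fun i j hij => ?_⟩
  · obtain ⟨e, he, hle⟩ := h1 i
    refine ⟨g.mapEdgeSet e, he, ?_⟩
    show Sym2.map g (le e) = _
    rw [hle]
    rfl
  · have := h2 i
    rw [bk_clo_pb, bk_inf_pb hINV] at this
    exact this
  · have := h3 i j hij
    rw [bk_clo_pb, bk_conn_pb hINV] at this
    exact this

/-- Translations. -/
def bkT (t : Fin d → ℤ) : lat d ≃g lat d where
  toEquiv := Equiv.addRight t
  map_rel_iff' := by
    intro a b
    simp [lat]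

/-! ## Counting -/

theorem bk_nrm (n : ℕ) (x : Fin d → ℤ) :
    x ∈ Finset.Icc (fun _ => -(n : ℤ)) (fun _ => (n : ℤ)) ↔ nrm x ≤ n := by
  rw [Finset.mem_Icc, nrm, Finset.sup_le_iff, Pi.le_def, Pi.le_def]
  constructor
  · rintro ⟨h1, h2⟩ i _
    have := h1 i
    have := h2 i
    omega
  · intro h
    constructor
    · intro i
      have := h i (Finset.mem_univ i)
      show -(n : ℤ) ≤ x i
      omega
    · intro i
      have := h i (Finset.mem_univ i)
      show x i ≤ (n : ℤ)
      omega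

/-- The box. -/
noncomputable def bkB (d n : ℕ) : Finset (Fin d → ℤ) := Finset.Icc (fun _ => -(n : ℤ)) (fun _ => (n : ℤ))

theorem bk_box_card (n : ℕ) : (bkB d n).card = (2 * n + 1) ^ d := by
  unfold bkB
  rw [Pi.card_Icc]
  simp only [Int.card_Icc, Finset.prod_const, Finset.card_univ, Fintype.card_fin]
  congr 1
  omega

theorem bk_sph_card (n : ℕ) : (sph d (n + 1)).card + (2 * n + 1) ^ d ≤ (2 * n + 3) ^ d := by
  classical
  have h1 : sph d (n + 1) ∪ bkB d n ⊆ bkB d (n + 1) := by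
    intro x hx
    rw [Finset.mem_union] at hx
    unfold bkB at hx ⊢
    rw [bk_nrm]
    rcases hx with hx | hx
    · unfold sph at hx
      rw [Finset.mem_filter] at hx
      exact hx.2.le
    · rw [bk_nrm] at hx
      omega
  have h2 : Disjoint (sph d (n + 1)) (bkB d n) := by
    rw [Finset.disjoint_left]
    intro x hx hx2
    unfold sph at hx
    rw [Finset.mem_filter] at hx
    unfold bkB at hx2
    rw [bk_nrm] at hx2
    omega
  have h3 := Finset.card_le_card h1
  rw [Finset.card_union_of_disjoint h2, bk_box_card, bk_box_card] at h3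
  have h4 : 2 * (n + 1) + 1 = 2 * n + 3 := by ring
  rw [h4] at h3
  exact h3

theorem bk_growth (t : ℝ) (ht : 0 < t)
    (h : ∀ n : ℕ, t * (2 * n + 1) ^ d + (2 * n + 1) ^ d ≤ ((2 * n + 3) ^ d : ℝ)) : False := by
  have h1 : ∀ n : ℕ, 1 + t ≤ ((2 * n + 3) / (2 * n + 1) : ℝ) ^ d := by
    intro n
    have h2 := h n
    have h3 : (0 : ℝ) < (2 * n + 1) ^ d := by positivity
    rw [div_pow, le_div_iff₀ h3]
    linarith
  have h2 : Tendsto (fun n : ℕ => ((2 * n + 3) / (2 * n + 1) : ℝ) ^ d) atTop (𝓝 (1 ^ d)) := by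
    refine Tendsto.pow ?_ d
    have h3 : ∀ n : ℕ, ((2 * n + 3) / (2 * n + 1) : ℝ) = 1 + 2 * (1 / (2 * n + 1)) := by
      intro n
      have : (2 * n + 1 : ℝ) ≠ 0 := by positivity
      field_simp
      ring
    simp only [h3]
    have h4 : Tendsto (fun n : ℕ => (1 / (2 * n + 1) : ℝ)) atTop (𝓝 0) := by
      refine squeeze_zero (fun n => by positivity) (fun n => ?_) tendsto_one_div_add_atTop_nhds_zero_nat
      have h5 : (0 : ℝ) < (n : ℝ) + 1 := by positivity
      have h6 : (0 : ℝ) ≤ n := Nat.cast_nonneg n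
      exact one_div_le_one_div_of_le h5 (by linarith)
    have := (h4.const_mul 2).const_add 1
    simpa using this
  have h3 := ge_of_tendsto' h2 h1
  rw [one_pow] at h3
  linarith

theorem bk_three (hTRI : ST_TRI) (hTRM : ST_TRM) (hBK3 : ST_BK3) (hMEAS : ST_MEAS)
    (hINV : ST_INV) (hd : 2 ≤ d) {β : ℝ} (hβ : 0 < β) {μ : Measure (Cfg d)} (hμ : IsFK β μ) :
    μ {ω | Three ω} = 0 := by
  classical
  have hprob := hμ.1
  by_contra hne
  obtain ⟨v, hv⟩ := hBK3 d hd β hβ μ hμ hne
  have hm : ∀ w : Fin d → ℤ, MeasurableSet {ω : Cfg d | Tri w ω} := (hMEAS d).2.2.2.1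
  have hle : ∀ w : Fin d → ℤ, μ {ω | Tri v ω} ≤ μ {ω | Tri w ω} := by
    intro w
    have h1 : μ (pb (bkT (w - v)) ⁻¹' {ω | Tri v ω}) = μ {ω | Tri v ω} := by
      have h2 := hTRM d β hβ.le μ hμ (bkT (w - v))
      have h3 := Measure.map_apply (μ := μ) ((hMEAS d).2.2.2.2.2 (bkT (w - v))) (hm v)
      rw [← h3, h2]
    rw [← h1]
    refine measure_mono fun ω hω => ?_
    have h2 := bk_tri_pb hINV (bkT (w - v)) v ω hω
    have h3 : bkT (w - v) v = w := by
      show v + (w - v) = w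
      abel
    rw [h3] at h2
    exact h2
  set t : ℝ := μ.real {ω | Tri v ω} with ht
  have ht0 : 0 < t := by
    rw [ht, measureReal_def]
    exact ENNReal.toReal_pos hv (measure_ne_top _ _)
  refine bk_growth (d := d) t ht0 fun n => ?_
  have h1 : ∑ w ∈ bkB d n, μ.real {ω | Tri w ω} ≤ (sph d (n + 1)).card := by
    have h2 : ∀ w, μ.real {ω | Tri w ω} = ∫ ω, ({ω | Tri w ω} : Set (Cfg d)).indicator (fun _ => (1 : ℝ)) ω ∂μ := by
      intro w
      rw [integral_indicator (hm w), setIntegral_const, smul_eq_mul, mul_one]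
    have h3 : ∀ w, Integrable (({ω | Tri w ω} : Set (Cfg d)).indicator (fun _ => (1 : ℝ))) μ :=
      fun w => (integrable_const (1 : ℝ)).indicator (hm w)
    simp only [h2]
    rw [← integral_finsetSum _ (fun w _ => h3 w)]
    have h4 : ∫ _ : Cfg d, ((sph d (n + 1)).card : ℝ) ∂μ = (sph d (n + 1)).card := by
      simp
    rw [← h4]
    refine integral_mono (integrable_finsetSum _ fun w _ => h3 w) (integrable_const _) fun ω => ?_
    have h5 : ∑ w ∈ bkB d n, ({ω | Tri w ω} : Set (Cfg d)).indicator (fun _ => (1 : ℝ)) ω =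
        ((bkB d n).filter (fun w => Tri w ω)).card := by
      rw [Finset.card_filter]
      push_cast
      refine Finset.sum_congr rfl fun w _ => ?_
      simp [indicator]
    show ∑ w ∈ bkB d n, ({ω | Tri w ω} : Set (Cfg d)).indicator (fun _ => (1 : ℝ)) ω ≤ _
    rw [h5]
    have h6 := hTRI d hd ω n ((bkB d n).filter (fun w => Tri w ω)) (fun w hw => by
      rw [Finset.mem_filter] at hw
      refine ⟨?_, hw.2⟩
      have := hw.1
      unfold bkB at this
      rwa [bk_nrm] at this)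
    exact_mod_cast h6
  have h2 : (2 * (n : ℝ) + 1) ^ d * t ≤ ∑ w ∈ bkB d n, μ.real {ω | Tri w ω} := by
    have h3 : ∑ _w ∈ bkB d n, t ≤ ∑ w ∈ bkB d n, μ.real {ω | Tri w ω} := by
      refine Finset.sum_le_sum fun w _ => ?_
      rw [ht, measureReal_def, measureReal_def]
      exact ENNReal.toReal_mono (measure_ne_top _ _) (hle w)
    rw [Finset.sum_const, nsmul_eq_mul, bk_box_card] at h3
    push_cast at h3
    exact h3
  have h3 : ((sph d (n + 1)).card : ℝ) + (2 * n + 1) ^ d ≤ (2 * n + 3) ^ d := by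
    exact_mod_cast bk_sph_card (d := d) n
  linarith

/-! ## At most one infinite cluster -/

theorem bk_zero {μ : Measure (Cfg d)} (hμ : IsFK 0 μ) (x : Fin d → ℤ) : μ (IN x) = 0 := by
  classical
  have hprob := hμ.1
  have h1 : ∀ e : Ed d, μ {ω | ω e = true} = 0 := by
    intro e
    have h2 := hμ.2 {ω | ω e = true} ⟨{e}, fun ω ω' h => by
      show ω e = true ↔ ω' e = true
      rw [h e (Finset.mem_singleton_self e)]⟩
    have h3 : ∀ᶠ Λ : Finset (Ed d) in atTop, PW 0 Λ {ω | ω e = true} = 0 := by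
      filter_upwards [eventually_ge_atTop {e}] with Λ hΛ
      have he : e ∈ Λ := hΛ (Finset.mem_singleton_self e)
      have h4 : ∑ T ∈ Λ.powerset, ({ω | ω e = true} : Set (Cfg d)).indicator
          (fun _ => wW 0 Λ T) (exw Λ T) = 0 := by
        refine Finset.sum_eq_zero fun T _ => ?_
        by_cases hT : T = ∅
        · subst hT
          rw [indicator_of_notMem]
          intro h5
          have h6 : exw Λ ∅ e = true := h5
          simp [exw, ext, he] at h6
        · have : wW 0 Λ T = 0 := by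
            unfold wW
            rw [mul_zero, Real.exp_zero, sub_self, zero_pow, zero_mul]
            exact (Finset.card_pos.2 (Finset.nonempty_iff_ne_empty.2 hT)).ne'
          simp [indicator, this]
      unfold PW
      rw [h4, zero_div]
    have h4 : μ.real {ω | ω e = true} = 0 :=
      tendsto_nhds_unique h2 (tendsto_const_nhds.congr' (h3.mono fun _ h => h.symm))
    rw [measureReal_def, ENNReal.toReal_eq_zero_iff] at h4
    rcases h4 with h4 | h4
    · exact h4
    · exact absurd h4 (measure_ne_top _ _)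
  have h2 : μ (⋃ e : Ed d, {ω | ω e = true}) = 0 := measure_iUnion_null h1
  refine measure_mono_null ?_ h2
  intro ω hω
  rw [mem_iUnion]
  by_contra hcon
  push Not at hcon
  apply hω
  refine Finite.subset (finite_singleton x) ?_
  intro y hy
  have h3 : ∀ y, LConn ω x y → y = x := by
    intro y hy
    induction hy with
    | refl => rfl
    | tail _ h2 _ =>
      obtain ⟨e, he, _⟩ := h2
      exact absurd he (hcon e)
  exact h3 y hy

theorem bk_two (hTRI : ST_TRI) (hTRM : ST_TRM) (hBK3 : ST_BK3) (hERG : ST_ERG) (hFE : ST_FE)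
    (hMEAS : ST_MEAS) (hLATC : ST_LATC)
    (hINV : ST_INV) (hd : 2 ≤ d) {β : ℝ} (hβ : 0 < β) {μ : Measure (Cfg d)} (hμ : IsFK β μ) :
    μ {ω | TwoInf ω} = 0 := by
  classical
  have hprob := hμ.1
  have hTm : MeasurableSet {ω : Cfg d | TwoInf ω} := by
    have h1 : {ω : Cfg d | TwoInf ω} =
        ⋃ x : Fin d → ℤ, ⋃ y : Fin d → ℤ, (IN x ∩ (IN y ∩ (CN x y)ᶜ)) := by
      ext ω
      simp only [mem_iUnion]
      rfl
    rw [h1]
    refine MeasurableSet.iUnion fun x => MeasurableSet.iUnion fun y => ?_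
    exact ((hMEAS d).2.2.1 x).inter (((hMEAS d).2.2.1 y).inter ((hMEAS d).2.1 x y).compl)
  have h3 := bk_three hTRI hTRM hBK3 hMEAS hINV hd hβ hμ
  by_contra hne
  have hone : μ {ω | TwoInf ω} = 1 := by
    rcases hERG d (by omega) β hβ.le μ hμ _ hTm (fun g => bk_two_pb hINV g) with h | h
    · exact absurd h hne
    · exact h
  have hcompl : μ {ω : Cfg d | TwoInf ω}ᶜ = 0 := by
    rw [prob_compl_eq_zero_iff hTm]
    exact hone
  obtain ⟨x, y, hxy⟩ : ∃ x y : Fin d → ℤ,
      μ {ω | Infin ω x ∧ Infin ω y ∧ ¬ LConn ω x y ∧ ¬ Three ω} ≠ 0 := by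
    by_contra hcon
    push Not at hcon
    apply hne
    have h4 : {ω : Cfg d | TwoInf ω} ⊆ {ω | Three ω} ∪
        ⋃ x : Fin d → ℤ, ⋃ y : Fin d → ℤ,
          {ω | Infin ω x ∧ Infin ω y ∧ ¬ LConn ω x y ∧ ¬ Three ω} := by
      rintro ω ⟨x, y, hx, hy, hxy⟩
      by_cases h5 : Three ω
      · exact Or.inl h5
      · refine Or.inr ?_
        rw [mem_iUnion]
        refine ⟨x, ?_⟩
        rw [mem_iUnion]
        exact ⟨y, hx, hy, hxy, h5⟩
    refine measure_mono_null h4 (measure_union_null h3 ?_)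
    exact measure_iUnion_null fun x => measure_iUnion_null fun y => hcon x y
  obtain ⟨B, hB⟩ := bk_conn_fin ((hLATC d hd).1 x y)
  set A : Set (Cfg d) := {ω | ¬ TwoInf (bkOp B ω)} with hA
  have hAm : MeasurableSet A := (bk_op_meas B) hTm.compl
  have hAB : ∀ ω ω' : Cfg d, (∀ e ∉ B, ω e = ω' e) → (ω ∈ A ↔ ω' ∈ A) := by
    intro ω ω' h
    have : bkOp B ω = bkOp B ω' := by
      funext e
      by_cases he : e ∈ B
      · simp [bkOp, he]
      · simp [bkOp, he, h e he]
    show ¬ TwoInf (bkOp B ω) ↔ ¬ TwoInf (bkOp B ω')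
    rw [this]
  have hApos : 0 < μ.real A := by
    rw [measureReal_def]
    refine ENNReal.toReal_pos (fun h => hxy (measure_mono_null ?_ h)) (measure_ne_top _ _)
    rintro ω ⟨h1, h2, h4, h5⟩
    exact bk_merge B ω x y hB h1 h2 h4 h5
  obtain ⟨c, hc, hcA⟩ := hFE d β hβ μ hμ B
  have h4 := hcA A hAm hAB (fun _ => true)
  have h5 : μ.real (A ∩ {ω | ∀ e ∈ B, ω e = true}) = 0 := by
    rw [measureReal_def]
    have : μ (A ∩ {ω | ∀ e ∈ B, ω e = true}) = 0 := by
      refine measure_mono_null ?_ hcompl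
      rintro ω ⟨h6, h7⟩
      have h8 : bkOp B ω = ω := by
        funext e
        by_cases he : e ∈ B
        · simp [bkOp, he, h7 e he]
        · simp [bkOp, he]
      have h9 : ¬ TwoInf (bkOp B ω) := h6
      rw [h8] at h9
      exact h9
    rw [this]
    rfl
  have h6 : c * μ.real A ≤ 0 := h4.trans h5.le
  exact absurd (mul_pos hc hApos) (not_lt.2 h6)

theorem st_BK (hTRI : ST_TRI) (hTRM : ST_TRM) (hBK3 : ST_BK3) (hERG : ST_ERG) (hFE : ST_FE)
    (hMEAS : ST_MEAS) (hLATC : ST_LATC) (hINV : ST_INV) : ST_BK := by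
  intro d hd β hβ μ hμ x y
  rcases hβ.eq_or_lt with h | h
  · subst h
    exact measure_mono_null (fun ω hω => hω.1.1) (bk_zero hμ x)
  · refine measure_mono_null ?_ (bk_two hTRI hTRM hBK3 hERG hFE hMEAS hLATC hINV hd h hμ)
    rintro ω ⟨⟨h1, h2⟩, h3⟩
    exact ⟨x, y, h1, h2, h3⟩

end IIC
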