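import Pool.Agent.Helper94.IIC.FE

/-! # ERG: ergodicity (IIC project) -/

namespace IIC

open Filter Topology Set MeasureTheory
open scoped BigOperators symmDiff ENNReal

variable {d : ℕ}

/-! ## Representation of cylinders -/

/-- The indicator of an event. -/
noncomputable def ergI (A : Set (Cfg d)) : Cfg d → ℝ := A.indicator (fun _ => 1)

/-- The span of the indicators of the events `UF K`. -/
noncomputable def ergS (d : ℕ) : Submodule ℝ (Cfg d → ℝ) :=
  Submodule.span ℝ (range fun K : Finset (Ed d) => ergI (UF K))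

theorem erg_UF_mul [DecidableEq (Ed d)] (K K' : Finset (Ed d)) :
    ergI (UF K) * ergI (UF K') = ergI (UF (K ∪ K')) := by
  have h : UF (K ∪ K') = UF K ∩ UF K' := by
    ext ω
    constructor
    · intro h
      exact ⟨fun e he => h e (Finset.mem_union_left _ he),
        fun e he => h e (Finset.mem_union_right _ he)⟩
    · rintro ⟨h1, h2⟩ e he
      rcases Finset.mem_union.1 he with h | h
      · exact h1 e h
      · exact h2 e h
  rw [h]
  funext ω
  simp only [ergI, Pi.mul_apply]
  by_cases h1 : ω ∈ UF K <;> by_cases h2 : ω ∈ UF K' <;> simp [h1, h2]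

theorem erg_mul_mem (e : Ed d) {f : Cfg d → ℝ} (hf : f ∈ ergS d) : f * ergI (UF {e}) ∈ ergS d := by
  classical
  unfold ergS at hf ⊢
  induction hf using Submodule.span_induction with
  | mem x hx =>
    obtain ⟨K, rfl⟩ := hx
    rw [erg_UF_mul]
    exact Submodule.subset_span ⟨_, rfl⟩
  | zero =>
    rw [zero_mul]
    exact Submodule.zero_mem _
  | add x y _ _ hx hy =>
    rw [add_mul]
    exact Submodule.add_mem _ hx hy
  | smul a x _ hx =>
    rw [smul_mul_assoc]
    exact Submodule.smul_mem _ _ hx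

theorem erg_cyl_mem (F : Finset (Ed d)) : ∀ (C : Set (Cfg d)),
    (∀ ω ω' : Cfg d, (∀ e ∈ F, ω e = ω' e) → (ω ∈ C ↔ ω' ∈ C)) → ergI C ∈ ergS d := by
  classical
  induction F using Finset.induction_on with
  | empty =>
    intro C hC
    by_cases h : (fun _ => true : Cfg d) ∈ C
    · have : C = UF ∅ := by
        ext ω
        have := hC ω (fun _ => true) (by simp)
        simp [this, h, UF]
      rw [this]
      exact Submodule.subset_span ⟨_, rfl⟩
    · have : C = ∅ := by
        ext ω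
        have := hC ω (fun _ => true) (by simp)
        simp [this, h]
      rw [this]
      have : ergI (∅ : Set (Cfg d)) = 0 := by
        funext ω
        simp [ergI]
      rw [this]
      exact Submodule.zero_mem _
  | insert e F he ih =>
    intro C hC
    let C1 : Set (Cfg d) := {ω | Function.update ω e true ∈ C}
    let C0 : Set (Cfg d) := {ω | Function.update ω e false ∈ C}
    have hup : ∀ (b : Bool) (ω ω' : Cfg d), (∀ f ∈ F, ω f = ω' f) →
        (Function.update ω e b ∈ C ↔ Function.update ω' e b ∈ C) := by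
      intro b ω ω' h
      refine hC _ _ fun f hf => ?_
      by_cases hfe : f = e
      · subst hfe
        simp
      · rw [Function.update_of_ne hfe, Function.update_of_ne hfe]
        exact h f (Finset.mem_of_mem_insert_of_ne hf hfe)
    have h1 := ih C1 (hup true)
    have h0 := ih C0 (hup false)
    have key : ergI C = ergI C1 * ergI (UF {e}) + (ergI C0 - ergI C0 * ergI (UF {e})) := by
      funext ω
      simp only [ergI, Pi.mul_apply, Pi.add_apply, Pi.sub_apply]
      cases hb : ω e with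
      | true =>
        have hu : ω ∈ UF {e} := by
          intro f hf
          rw [Finset.mem_singleton] at hf
          rw [hf, hb]
        have hc : ω ∈ C ↔ ω ∈ C1 := by
          show ω ∈ C ↔ Function.update ω e true ∈ C
          have : Function.update ω e true = ω := by
            rw [← hb]
            exact Function.update_eq_self e ω
          rw [this]
        by_cases h : ω ∈ C1
        · simp [hu, h, hc.2 h]
        · have h' : ω ∉ C := fun h2 => h (hc.1 h2)
          simp [hu, h, h']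
      | false =>
        have hu : ω ∉ UF {e} := by
          intro h
          have := h e (Finset.mem_singleton_self e)
          rw [hb] at this
          exact absurd this (by decide)
        have hc : ω ∈ C ↔ ω ∈ C0 := by
          show ω ∈ C ↔ Function.update ω e false ∈ C
          have : Function.update ω e false = ω := by
            rw [← hb]
            exact Function.update_eq_self e ω
          rw [this]
        by_cases h : ω ∈ C0
        · simp [hu, h, hc.2 h]
        · have h' : ω ∉ C := fun h2 => h (hc.1 h2)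
          simp [hu, h, h']
    rw [key]
    exact Submodule.add_mem _ (erg_mul_mem e h1) (Submodule.sub_mem _ h0 (erg_mul_mem e h0))

theorem erg_rep {C : Set (Cfg d)} (hC : IsCyl C) :
    ∃ c : Finset (Ed d) →₀ ℝ, ∀ ω, ergI C ω = ∑ K ∈ c.support, c K * ergI (UF K) ω := by
  obtain ⟨F, hF⟩ := hC
  have h := erg_cyl_mem F C hF
  unfold ergS at h
  rw [Finsupp.mem_span_range_iff_exists_finsupp] at h
  obtain ⟨c, hc⟩ := h
  refine ⟨c, fun ω => ?_⟩
  rw [← hc, Finsupp.sum]
  simp [Finset.sum_apply]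

/-! ## Measures -/

theorem erg_UF_meas (K : Finset (Ed d)) : MeasurableSet (UF K) := by
  have : UF K = ⋂ e ∈ K, {ω : Cfg d | ω e = true} := by
    ext ω
    simp [UF]
  rw [this]
  exact Finset.measurableSet_biInter _ fun e _ => (measurable_pi_apply e) (measurableSet_singleton _)

theorem erg_sum {μ : Measure (Cfg d)} [IsFiniteMeasure μ] {ι : Type} (s : Finset ι) (c : ι → ℝ)
    (U : ι → Set (Cfg d)) (hU : ∀ i, MeasurableSet (U i)) {A : Set (Cfg d)}
    (hA : MeasurableSet A) (B : Set (Cfg d))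
    (h : ∀ ω, ergI A ω = ∑ i ∈ s, c i * ergI (U i) ω) :
    μ.real (A ∩ B) = ∑ i ∈ s, c i * μ.real (U i ∩ B) := by
  have h1 : ∀ X : Set (Cfg d), MeasurableSet X → μ.real (X ∩ B) = ∫ ω in B, ergI X ω ∂μ := by
    intro X hX
    unfold ergI
    rw [integral_indicator hX, setIntegral_const, smul_eq_mul, mul_one]
    rw [measureReal_def, measureReal_def, Measure.restrict_apply hX]
  have hint : ∀ X : Set (Cfg d), MeasurableSet X → Integrable (ergI X) (μ.restrict B) := by
    intro X hX
    unfold ergI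
    exact (integrable_const (1 : ℝ)).indicator hX
  rw [h1 A hA]
  simp only [h]
  rw [integral_finsetSum]
  · refine Finset.sum_congr rfl fun i _ => ?_
    rw [integral_const_mul, h1 _ (hU i)]
  · intro i _
    exact (hint _ (hU i)).const_mul _

/-! ## Translations -/

/-- Translation by `n` in the direction `i₀`. -/
noncomputable def ergT (i₀ : Fin d) (n : ℕ) : lat d ≃g lat d where
  toEquiv := Equiv.addRight (Pi.single i₀ (n : ℤ))
  map_rel_iff' := by
    intro a b
    simp [lat]

/-- The sum of the coordinates `i₀` of the endpoints. -/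
def ergV (i₀ : Fin d) : Sym2 (Fin d → ℤ) → ℤ :=
  Sym2.lift ⟨fun a b => a i₀ + b i₀, fun _ _ => add_comm _ _⟩

theorem erg_V_map (i₀ : Fin d) (n : ℕ) (s : Sym2 (Fin d → ℤ)) :
    ergV i₀ (Sym2.map (ergT i₀ n) s) = ergV i₀ s + 2 * n := by
  induction s using Sym2.ind with
  | h a b =>
    have h1 : ∀ x : Fin d → ℤ, (ergT i₀ n x) i₀ = x i₀ + n := by
      intro x
      show (x + Pi.single i₀ (n : ℤ) : Fin d → ℤ) i₀ = _
      simp
    show (ergT i₀ n a) i₀ + (ergT i₀ n b) i₀ = (a i₀ + b i₀) + 2 * n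
    rw [h1, h1]
    ring

theorem erg_le_map (g : lat d ≃g lat d) (e : Ed d) : le (g.mapEdgeSet e) = Sym2.map g (le e) := rfl

theorem erg_far (i₀ : Fin d) (e f : Ed d) : ∀ᶠ n : ℕ in atTop, (ergT i₀ n).mapEdgeSet f ≠ e := by
  have hinj : Function.Injective fun n : ℕ => (ergT i₀ n).mapEdgeSet f := by
    intro n m h
    have h1 : ergV i₀ (le ((ergT i₀ n).mapEdgeSet f)) = ergV i₀ (le ((ergT i₀ m).mapEdgeSet f)) := by
      rw [show (ergT i₀ n).mapEdgeSet f = (ergT i₀ m).mapEdgeSet f from h]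
    rw [erg_le_map, erg_le_map, erg_V_map, erg_V_map] at h1
    omega
  have h2 := hinj.tendsto_cofinite
  rw [Nat.cofinite_eq_atTop] at h2
  have h3 : ({e}ᶜ : Set (Ed d)) ∈ cofinite := (finite_singleton e).compl_mem_cofinite
  exact h2 h3

theorem erg_disj (i₀ : Fin d) (Λ₁ Λ₂ : Finset (Ed d)) :
    ∀ᶠ n : ℕ in atTop, Disjoint Λ₁ (Λ₂.map (ergT i₀ n).mapEdgeSet.toEmbedding) := by
  have h1 : ∀ᶠ n : ℕ in atTop, ∀ e ∈ Λ₁, ∀ f ∈ Λ₂, (ergT i₀ n).mapEdgeSet f ≠ e := by
    rw [Finset.eventually_all]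
    intro e _
    rw [Finset.eventually_all]
    intro f _
    exact erg_far i₀ e f
  filter_upwards [h1] with n hn
  rw [Finset.disjoint_left]
  intro e he he2
  rw [Finset.mem_map] at he2
  obtain ⟨f, hf, hfe⟩ := he2
  exact hn e he f hf hfe

/-! ## Mixing -/

theorem erg_cyl_UF (K : Finset (Ed d)) : IsCyl (UF K) := by
  refine ⟨K, fun ω ω' h => ?_⟩
  constructor
  · intro h2 e he
    rw [← h e he]
    exact h2 e he
  · intro h2 e he
    rw [h e he]
    exact h2 e he

theorem erg_up_UF (K : Finset (Ed d)) : IsUpperSet (UF K) := by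
  intro ω ω' h h2 e he
  have h3 := h e
  rw [h2 e he] at h3
  exact le_antisymm le_top h3

theorem erg_pb_UF (g : lat d ≃g lat d) (K : Finset (Ed d)) :
    pb g ⁻¹' UF K = UF (K.map g.mapEdgeSet.toEmbedding) := by
  ext ω
  constructor
  · intro h e he
    rw [Finset.mem_map] at he
    obtain ⟨f, hf, rfl⟩ := he
    exact h f hf
  · intro h e he
    exact h _ (Finset.mem_map_of_mem _ he)

theorem erg_pb_meas (g : lat d ≃g lat d) : Measurable (pb g) :=
  measurable_pi_lambda _ fun e => measurable_pi_apply (g.mapEdgeSet e)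

theorem erg_real_pb (hTRM : ST_TRM) {β : ℝ} (hβ : 0 ≤ β) {μ : Measure (Cfg d)}
    (hμ : IsFK β μ) (g : lat d ≃g lat d) {A : Set (Cfg d)} (hA : MeasurableSet A) :
    μ (pb g ⁻¹' A) = μ A := by
  have h := hTRM d β hβ μ hμ g
  have h2 : Measure.map (pb g) μ A = μ (pb g ⁻¹' A) := Measure.map_apply (erg_pb_meas g) hA
  rw [← h2, h]

theorem erg_lower (hFKG : ST_FKG) (hTRM : ST_TRM) {β : ℝ} (hβ : 0 ≤ β) {μ : Measure (Cfg d)}
    (hμ : IsFK β μ) (g : lat d ≃g lat d) (K K' : Finset (Ed d)) :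
    μ.real (UF K) * μ.real (UF K') ≤ μ.real (UF K ∩ pb g ⁻¹' UF K') := by
  classical
  have h1 : μ.real (UF K') = μ.real (pb g ⁻¹' UF K') := by
    rw [measureReal_def, measureReal_def, erg_real_pb hTRM hβ hμ g (erg_UF_meas K')]
  rw [h1, erg_pb_UF]
  set L := K'.map g.mapEdgeSet.toEmbedding
  have h2 : UF K ∩ UF L = UF (K ∪ L) := by
    ext ω
    constructor
    · rintro ⟨h1, h2⟩ e he
      rcases Finset.mem_union.1 he with h | h
      · exact h1 e h
      · exact h2 e h
    · intro h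
      exact ⟨fun e he => h e (Finset.mem_union_left _ he),
        fun e he => h e (Finset.mem_union_right _ he)⟩
  rw [h2]
  refine le_of_tendsto_of_tendsto ((hμ.2 _ (erg_cyl_UF K)).mul (hμ.2 _ (erg_cyl_UF L)))
    (hμ.2 _ (erg_cyl_UF (K ∪ L))) (Eventually.of_forall fun Λ => ?_)
  rw [← h2]
  exact hFKG d β hβ Λ _ _ (erg_up_UF K) (erg_up_UF L)

theorem erg_upper (hDOM : ST_DOM) (hINV : ST_INV) {β : ℝ} (hβ : 0 ≤ β) {μ : Measure (Cfg d)}
    (hμ : IsFK β μ) (g : lat d ≃g lat d) (K K' Λ₁ Λ₂ : Finset (Ed d))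
    (hdis : Disjoint Λ₁ (Λ₂.map g.mapEdgeSet.toEmbedding)) :
    μ.real (UF K ∩ pb g ⁻¹' UF K') ≤ PW β Λ₁ (UF K) * PW β Λ₂ (UF K') := by
  classical
  have h3 : PW β Λ₂ (UF K') = PW β (Λ₂.map g.mapEdgeSet.toEmbedding) (pb g ⁻¹' UF K') := by
    rw [(hINV d g).1]
    congr 1
    rw [Finset.map_map]
    ext e
    rw [Finset.mem_map]
    constructor
    · intro he
      refine ⟨e, he, ?_⟩
      show g.symm.mapEdgeSet (g.mapEdgeSet e) = e
      apply Subtype.ext
      show Sym2.map g.symm (Sym2.map g e.1) = e.1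
      rw [Sym2.map_map]
      have : (g.symm ∘ g : (Fin d → ℤ) → Fin d → ℤ) = id := by
        funext x
        simp
      rw [this, Sym2.map_id]
      rfl
    · rintro ⟨f, hf, hfe⟩
      have : f = e := by
        rw [← hfe]
        show f = g.symm.mapEdgeSet (g.mapEdgeSet f)
        apply Subtype.ext
        show f.1 = Sym2.map g.symm (Sym2.map g f.1)
        rw [Sym2.map_map]
        have : (g.symm ∘ g : (Fin d → ℤ) → Fin d → ℤ) = id := by
          funext x
          simp
        rw [this, Sym2.map_id]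
        rfl
      rw [← this]
      exact hf
  rw [h3, erg_pb_UF]
  set L := K'.map g.mapEdgeSet.toEmbedding
  have h2 : UF K ∩ UF L = UF (K ∪ L) := by
    ext ω
    constructor
    · rintro ⟨h1, h2⟩ e he
      rcases Finset.mem_union.1 he with h | h
      · exact h1 e h
      · exact h2 e h
    · intro h
      exact ⟨fun e he => h e (Finset.mem_union_left _ he),
        fun e he => h e (Finset.mem_union_right _ he)⟩
  rw [h2]
  refine le_of_tendsto (hμ.2 _ (erg_cyl_UF (K ∪ L))) ?_
  filter_upwards [eventually_ge_atTop (Λ₁ ∪ Λ₂.map g.mapEdgeSet.toEmbedding)] with Λ hΛ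
  rw [← h2]
  exact hDOM d β hβ Λ₁ _ Λ hdis (Finset.subset_union_left.trans hΛ)
    (Finset.subset_union_right.trans hΛ) _ _ (erg_up_UF K) (erg_up_UF L)

theorem erg_mix (hDOM : ST_DOM) (hFKG : ST_FKG) (hTRM : ST_TRM) (hINV : ST_INV) {β : ℝ}
    (hβ : 0 ≤ β) {μ : Measure (Cfg d)} (hμ : IsFK β μ) (i₀ : Fin d) (K K' : Finset (Ed d)) :
    Tendsto (fun n : ℕ => μ.real (UF K ∩ pb (ergT i₀ n) ⁻¹' UF K')) atTop
      (𝓝 (μ.real (UF K) * μ.real (UF K'))) := by
  rw [tendsto_order]
  constructor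
  · intro x hx
    exact Eventually.of_forall fun n => hx.trans_le (erg_lower hFKG hTRM hβ hμ _ K K')
  · intro y hy
    have h1 := (hμ.2 _ (erg_cyl_UF K)).mul (hμ.2 _ (erg_cyl_UF K'))
    obtain ⟨Λ, hΛ⟩ := ((tendsto_order.1 h1).2 y hy).exists
    filter_upwards [erg_disj i₀ Λ Λ] with n hn
    exact (erg_upper hDOM hINV hβ hμ _ K K' Λ Λ hn).trans_lt hΛ

theorem erg_cyl_meas {C : Set (Cfg d)} (hC : IsCyl C) : MeasurableSet C := by
  classical
  obtain ⟨c, hc⟩ := erg_rep hC
  have h1 : Measurable (ergI C) := by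
    have : ergI C = fun ω => ∑ K ∈ c.support, c K * ergI (UF K) ω := funext hc
    rw [this]
    refine Finset.measurable_sum _ fun K _ => ?_
    exact (measurable_const.indicator (erg_UF_meas K)).const_mul _
  have h2 : C = ergI C ⁻¹' {1} := by
    ext ω
    by_cases h : ω ∈ C <;> simp [ergI, h]
  rw [h2]
  exact h1 (measurableSet_singleton 1)

theorem erg_mixC (hDOM : ST_DOM) (hFKG : ST_FKG) (hTRM : ST_TRM) (hINV : ST_INV) {β : ℝ}
    (hβ : 0 ≤ β) {μ : Measure (Cfg d)} (hμ : IsFK β μ) (i₀ : Fin d) {C : Set (Cfg d)}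
    (hC : IsCyl C) :
    Tendsto (fun n : ℕ => μ.real (C ∩ pb (ergT i₀ n) ⁻¹' C)) atTop
      (𝓝 (μ.real C * μ.real C)) := by
  have hprob := hμ.1
  have hCm := erg_cyl_meas hC
  obtain ⟨c, hc⟩ := erg_rep hC
  have h0 : μ.real C = ∑ K ∈ c.support, c K * μ.real (UF K) := by
    have := erg_sum (μ := μ) c.support c UF erg_UF_meas hCm univ hc
    simpa using this
  have h1 : ∀ n : ℕ, μ.real (C ∩ pb (ergT i₀ n) ⁻¹' C) =
      ∑ K ∈ c.support, c K * ∑ K' ∈ c.support, c K' *
        μ.real (UF K ∩ pb (ergT i₀ n) ⁻¹' UF K') := by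
    intro n
    rw [erg_sum (μ := μ) c.support c UF erg_UF_meas hCm (pb (ergT i₀ n) ⁻¹' C) hc]
    refine Finset.sum_congr rfl fun K _ => ?_
    congr 1
    rw [inter_comm]
    rw [erg_sum (μ := μ) c.support c (fun K' => pb (ergT i₀ n) ⁻¹' UF K')
      (fun K' => erg_pb_meas _ (erg_UF_meas K')) (erg_pb_meas _ hCm) (UF K)
      (fun ω => hc (pb (ergT i₀ n) ω))]
    refine Finset.sum_congr rfl fun K' _ => ?_
    rw [inter_comm]
  simp only [h1]
  have h2 : μ.real C * μ.real C = ∑ K ∈ c.support, c K * ∑ K' ∈ c.support, c K' *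
      (μ.real (UF K) * μ.real (UF K')) := by
    rw [h0, Finset.sum_mul]
    refine Finset.sum_congr rfl fun K _ => ?_
    rw [Finset.mul_sum, Finset.mul_sum]
    refine Finset.sum_congr rfl fun K' _ => ?_
    ring
  rw [h2]
  refine tendsto_finsetSum _ fun K _ => Tendsto.const_mul _ (tendsto_finsetSum _ fun K' _ =>
    Tendsto.const_mul _ (erg_mix hDOM hFKG hTRM hINV hβ hμ i₀ K K'))

theorem st_ERG (hDOM : ST_DOM) (hFKG : ST_FKG) (hTRM : ST_TRM) (hINV : ST_INV) : ST_ERG := by
  intro d hd β hβ μ hμ A hAm hA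
  have hprob := hμ.1
  have i₀ : Fin d := ⟨0, hd⟩
  set m := μ.real A with hm
  have hm0 : 0 ≤ m := measureReal_nonneg
  have hm1 : m ≤ 1 := measureReal_le_one
  have key : ∀ ε : ℝ, 0 < ε → ε ≤ 1 → m ≤ m * m + 5 * ε := by
    intro ε hε hε1
    obtain ⟨C, hC, h⟩ := fe_approx μ hAm (ENNReal.ofReal_pos.2 hε)
    have hCm := erg_cyl_meas hC
    have h1 : μ.real (C ∆ A) ≤ ε := by
      have h2 : μ.real (C ∆ A) ≤ (ENNReal.ofReal ε).toReal :=
        ENNReal.toReal_mono ENNReal.ofReal_ne_top h.le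
      rwa [ENNReal.toReal_ofReal hε.le] at h2
    have h2 : ∀ n : ℕ, m ≤ μ.real (C ∩ pb (ergT i₀ n) ⁻¹' C) + 2 * ε := by
      intro n
      have h3 : A ⊆ (C ∩ pb (ergT i₀ n) ⁻¹' C) ∪ ((C ∆ A) ∪ pb (ergT i₀ n) ⁻¹' (C ∆ A)) := by
        intro ω hω
        by_cases h4 : ω ∈ C
        · by_cases h5 : ω ∈ pb (ergT i₀ n) ⁻¹' C
          · exact Or.inl ⟨h4, h5⟩
          · refine Or.inr (Or.inr (Or.inr ⟨?_, h5⟩))
            have : ω ∈ pb (ergT i₀ n) ⁻¹' A := by rw [hA]; exact hω
            exact this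
        · exact Or.inr (Or.inl (Or.inr ⟨hω, h4⟩))
      have h5 : μ.real (pb (ergT i₀ n) ⁻¹' (C ∆ A)) = μ.real (C ∆ A) := by
        rw [measureReal_def, measureReal_def, erg_real_pb hTRM hβ hμ _ (hCm.symmDiff hAm)]
      calc m ≤ μ.real ((C ∩ pb (ergT i₀ n) ⁻¹' C) ∪ ((C ∆ A) ∪ pb (ergT i₀ n) ⁻¹' (C ∆ A))) :=
            measureReal_mono h3
        _ ≤ μ.real (C ∩ pb (ergT i₀ n) ⁻¹' C) + μ.real ((C ∆ A) ∪ pb (ergT i₀ n) ⁻¹' (C ∆ A)) :=
            measureReal_union_le _ _
        _ ≤ μ.real (C ∩ pb (ergT i₀ n) ⁻¹' C) +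
            (μ.real (C ∆ A) + μ.real (pb (ergT i₀ n) ⁻¹' (C ∆ A))) := by
            have := measureReal_union_le (μ := μ) (C ∆ A) (pb (ergT i₀ n) ⁻¹' (C ∆ A))
            linarith
        _ ≤ _ := by
            rw [h5]
            linarith
    have h3 : m ≤ μ.real C * μ.real C + 2 * ε := by
      refine ge_of_tendsto ((erg_mixC hDOM hFKG hTRM hINV hβ hμ i₀ hC).add_const (2 * ε))
        (Eventually.of_forall h2)
    have h4 : μ.real C ≤ m + ε := by
      have h5 : C ⊆ A ∪ (C ∆ A) := by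
        intro ω hω
        by_cases h6 : ω ∈ A
        · exact Or.inl h6
        · exact Or.inr (Or.inl ⟨hω, h6⟩)
      calc μ.real C ≤ μ.real (A ∪ (C ∆ A)) := measureReal_mono h5
        _ ≤ μ.real A + μ.real (C ∆ A) := measureReal_union_le _ _
        _ ≤ m + ε := by linarith
    have h5 : 0 ≤ μ.real C := measureReal_nonneg
    nlinarith
  have h1 : m ≤ m * m := by
    refine le_of_forall_pos_le_add fun δ hδ => ?_
    have h2 := key (min (δ / 5) 1) (lt_min (by positivity) one_pos) (min_le_right _ _)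
    have h3 : min (δ / 5) 1 ≤ δ / 5 := min_le_left _ _
    linarith
  have h2 : m = 0 ∨ m = 1 := by
    rcases hm0.lt_or_eq with h | h
    · right
      nlinarith
    · exact Or.inl h.symm
  rcases h2 with h | h
  · left
    rw [hm, measureReal_def, ENNReal.toReal_eq_zero_iff] at h
    rcases h with h | h
    · exact h
    · exact absurd h (measure_ne_top _ _)
  · right
    rw [hm, measureReal_def] at h
    rw [← ENNReal.ofReal_toReal (measure_ne_top μ A), h, ENNReal.ofReal_one]

end IIC
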