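import Pool.Agent.Helper20.IIC.Stmts

/-! # FE: finite energy (IIC project) -/

namespace IIC

open Filter Topology Set MeasureTheory
open scoped BigOperators symmDiff ENNReal

/-! ## Approximation by cylinders -/

theorem fe_approx {d : ℕ} (ν : Measure (Cfg d)) [IsFiniteMeasure ν] {A : Set (Cfg d)}
    (hA : MeasurableSet A) {ε : ℝ≥0∞} (hε : 0 < ε) : ∃ C : Set (Cfg d), IsCyl C ∧ ν (C ∆ A) < ε := by
  obtain ⟨C, hC, h⟩ := exists_measure_symmDiff_lt_of_generateFrom_isSetRing (μ := ν)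
    (C := measurableCylinders (fun _ : Ed d => Bool)) isSetRing_measurableCylinders
    ⟨{univ}, countable_singleton _, by
      intro s hs
      rw [mem_singleton_iff] at hs
      rw [hs]
      exact univ_mem_measurableCylinders _, by simp⟩
    generateFrom_measurableCylinders.symm hA hε
  refine ⟨C, ?_, h⟩
  rw [mem_measurableCylinders] at hC
  obtain ⟨s, S, _, rfl⟩ := hC
  refine ⟨s, fun ω ω' hω => ?_⟩
  rw [mem_cylinder, mem_cylinder]
  have : s.restrict ω = s.restrict ω' := by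
    funext e
    exact hω e.1 e.2
  rw [this]

/-! ## Number of clusters -/

section Abstract

variable {V E : Type} (ends : E → Sym2 V)

theorem fe_ncl_anti {S S' : Set E} (h : S ⊆ S') [Finite (Quot (Step ends S))] :
    ncl ends S' ≤ ncl ends S := by
  refine Nat.card_le_card_of_surjective (Quot.map id (fun x y hxy => ?_)) ?_
  · obtain ⟨e, he, hxy⟩ := hxy
    exact ⟨e, h he, hxy⟩
  · intro q
    induction q using Quot.inductionOn with
    | h x => exact ⟨Quot.mk _ x, rfl⟩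

theorem fe_fin_mono {S S' : Set E} (h : S ⊆ S') (hf : Finite (Quot (Step ends S))) :
    Finite (Quot (Step ends S')) := by
  refine Finite.of_surjective (Quot.map id (fun x y hxy => ?_) :
    Quot (Step ends S) → Quot (Step ends S')) ?_
  · obtain ⟨e, he, hxy⟩ := hxy
    exact ⟨e, h he, hxy⟩
  · intro q
    induction q using Quot.inductionOn with
    | h x => exact ⟨Quot.mk _ x, rfl⟩

theorem fe_ncl_insert (S : Set E) (e : E) [Finite (Quot (Step ends (insert e S)))] :
    ncl ends S ≤ ncl ends (insert e S) + 1 := by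
  classical
  obtain ⟨⟨a, b⟩, hab⟩ := (Sym2.mk_surjective) (ends e)
  have hab' : ends e = s(a, b) := hab.symm
  let φ : V → Quot (Step ends S) := fun x =>
    if (Quot.mk _ x : Quot (Step ends S)) = Quot.mk _ a then Quot.mk _ b else Quot.mk _ x
  have hφa : φ a = Quot.mk _ b := by simp [φ]
  have hφb : φ b = Quot.mk _ b := by
    simp only [φ]
    split_ifs <;> rfl
  let Φ : Quot (Step ends (insert e S)) → Quot (Step ends S) := Quot.lift φ (by
    intro u v huv
    obtain ⟨f, hf, hfu⟩ := huv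
    rcases hf with rfl | hf
    · rw [hab'] at hfu
      rw [Sym2.eq_iff] at hfu
      rcases hfu with ⟨rfl, rfl⟩ | ⟨rfl, rfl⟩
      · rw [hφa, hφb]
      · rw [hφa, hφb]
    · have : (Quot.mk _ u : Quot (Step ends S)) = Quot.mk _ v := Quot.sound ⟨f, hf, hfu⟩
      simp only [φ, this])
  let G : Option (Quot (Step ends (insert e S))) → Quot (Step ends S) := fun o =>
    match o with
    | none => Quot.mk _ a
    | some z => Φ z
  have hG : Function.Surjective G := by
    intro q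
    induction q using Quot.inductionOn with
    | h x =>
      by_cases hx : (Quot.mk _ x : Quot (Step ends S)) = Quot.mk _ a
      · exact ⟨none, hx.symm⟩
      · refine ⟨some (Quot.mk _ x), ?_⟩
        show φ x = _
        simp only [φ, if_neg hx]
  have h1 := Nat.card_le_card_of_surjective G hG
  rw [Finite.card_option] at h1
  exact h1

theorem fe_ncl_union (S : Set E) (B : Finset E) (hf : Finite (Quot (Step ends S))) :
    ncl ends S ≤ ncl ends (S ∪ (B : Set E)) + B.card := by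
  classical
  induction B using Finset.induction_on with
  | empty => simp
  | insert e B he ih =>
    rw [Finset.card_insert_of_notMem he]
    have h2 : (S ∪ ((insert e B : Finset E) : Set E)) = insert e (S ∪ (B : Set E)) := by
      rw [Finset.coe_insert, union_insert]
    rw [h2]
    have : Finite (Quot (Step ends (insert e (S ∪ (B : Set E))))) :=
      fe_fin_mono ends ((subset_union_left).trans (subset_insert _ _)) hf
    have h3 := fe_ncl_insert ends (S ∪ (B : Set E)) e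
    omega

end Abstract

/-! ## Finite volume -/

variable {d : ℕ}

theorem fe_exw_of_mem {Λ T : Finset (Ed d)} {e : Ed d} (he : e ∈ Λ) :
    exw Λ T e = decide (e ∈ T) := by
  simp [exw, ext, he]

theorem fe_exw_of_not {Λ T : Finset (Ed d)} {e : Ed d} (he : e ∉ Λ) :
    exw Λ T e = true := by
  simp [exw, ext, he]

open Classical in
/-- Change the configuration `T` on `B` to `η`. -/
noncomputable def feCh (B : Finset (Ed d)) (η : Cfg d) (T : Finset (Ed d)) : Finset (Ed d) :=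
  (T \ B) ∪ B.filter (fun e => η e = true)

theorem fe_mem_ch {B : Finset (Ed d)} {η : Cfg d} {T : Finset (Ed d)} {e : Ed d} :
    e ∈ feCh B η T ↔ (e ∈ T ∧ e ∉ B) ∨ (e ∈ B ∧ η e = true) := by
  classical
  simp [feCh]

theorem fe_exw_ch_of_not {Λ B : Finset (Ed d)} {η : Cfg d} {T : Finset (Ed d)} {e : Ed d}
    (he : e ∉ B) : exw Λ (feCh B η T) e = exw Λ T e := by
  by_cases h : e ∈ Λ
  · rw [fe_exw_of_mem h, fe_exw_of_mem h]
    congr 1
    rw [fe_mem_ch]
    simp [he]
  · rw [fe_exw_of_not h, fe_exw_of_not h]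

theorem fe_exw_ch_of_mem {Λ B : Finset (Ed d)} (hB : B ⊆ Λ) {η : Cfg d} {T : Finset (Ed d)}
    {e : Ed d} (he : e ∈ B) : exw Λ (feCh B η T) e = η e := by
  rw [fe_exw_of_mem (hB he)]
  have : e ∈ feCh B η T ↔ η e = true := by
    rw [fe_mem_ch]
    simp [he]
  by_cases h : η e = true
  · rw [h]
    simp [this, h]
  · have h' : η e = false := by simpa using h
    rw [h']
    simp [this, h']

theorem fe_ch_subset {Λ B : Finset (Ed d)} (hB : B ⊆ Λ) {η : Cfg d} {T : Finset (Ed d)}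
    (hT : T ⊆ Λ) : feCh B η T ⊆ Λ := by
  intro e he
  rw [fe_mem_ch] at he
  rcases he with ⟨h, _⟩ | ⟨h, _⟩
  · exact hT h
  · exact hB h

theorem fe_ch_card_le {B : Finset (Ed d)} {η : Cfg d} {T : Finset (Ed d)} :
    (feCh B η T).card ≤ T.card + B.card := by
  classical
  refine (Finset.card_union_le _ _).trans ?_
  exact Nat.add_le_add (Finset.card_le_card Finset.sdiff_subset)
    (Finset.card_le_card (Finset.filter_subset _ _))

theorem fe_ch_card_ge {B : Finset (Ed d)} {η : Cfg d} {T : Finset (Ed d)} :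
    T.card ≤ (feCh B η T).card + B.card := by
  classical
  have h1 : T ⊆ feCh B η T ∪ B := by
    intro e he
    rw [Finset.mem_union, fe_mem_ch]
    by_cases h : e ∈ B
    · exact Or.inr h
    · exact Or.inl (Or.inl ⟨he, h⟩)
  exact (Finset.card_le_card h1).trans (Finset.card_union_le _ _)

theorem fe_fiber {Λ B : Finset (Ed d)} {η : Cfg d} (U : Finset (Ed d)) [DecidableEq (Finset (Ed d))] :
    (Λ.powerset.filter (fun T => feCh B η T = U)).card ≤ 2 ^ B.card := by
  classical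
  rw [← Finset.card_powerset]
  refine Finset.card_le_card_of_injOn (fun T => T ∩ B) ?_ ?_
  · intro T _
    simp
  · intro T hT T' hT' h
    simp only [Finset.coe_filter, mem_ofPred_eq] at hT hT'
    ext e
    by_cases he : e ∈ B
    · have h2 : e ∈ T ∩ B ↔ e ∈ T' ∩ B := by
        have h3 : T ∩ B = T' ∩ B := h
        rw [h3]
      simpa [he] using h2
    · have h2 : e ∈ feCh B η T ↔ e ∈ feCh B η T' := by rw [hT.2, hT'.2]
      rw [fe_mem_ch, fe_mem_ch] at h2
      simpa [he] using h2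

theorem fe_qv (hBR : ST_BR) (Λ T : Finset (Ed d)) : Finite (Quot (Step le (op (exw Λ T)))) := by
  refine fe_fin_mono le (S := ((Λ : Set (Ed d))ᶜ)) ?_ (hBR d Λ).1
  intro e he
  have : e ∉ Λ := he
  exact fe_exw_of_not this

theorem fe_ncl_ch (hBR : ST_BR) (Λ B : Finset (Ed d)) (η : Cfg d) (T : Finset (Ed d)) :
    ncl le (op (exw Λ T)) ≤ ncl le (op (exw Λ (feCh B η T))) + B.card := by
  classical
  have hf : Finite (Quot (Step le (op (exw Λ (T \ B))))) := fe_qv hBR Λ _
  have h1 : op (exw Λ (T \ B)) ⊆ op (exw Λ T) := by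
    intro e he
    have he' : exw Λ (T \ B) e = true := he
    show exw Λ T e = true
    by_cases h : e ∈ Λ
    · rw [fe_exw_of_mem h] at he' ⊢
      simp at he' ⊢
      exact he'.1
    · exact fe_exw_of_not h
  have h2 : op (exw Λ (feCh B η T)) ⊆ op (exw Λ (T \ B)) ∪ (B : Set (Ed d)) := by
    intro e he
    have he' : exw Λ (feCh B η T) e = true := he
    by_cases hb : e ∈ B
    · exact Or.inr hb
    · left
      show exw Λ (T \ B) e = true
      rw [fe_exw_ch_of_not hb] at he'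
      by_cases h : e ∈ Λ
      · rw [fe_exw_of_mem h] at he' ⊢
        simp at he' ⊢
        exact ⟨he', hb⟩
      · exact fe_exw_of_not h
  have hf2 := fe_qv hBR Λ (feCh B η T)
  have a1 := fe_ncl_anti le h1
  have a2 := fe_ncl_union le (op (exw Λ (T \ B))) B hf
  have a3 := fe_ncl_anti le h2
  omega

/-- The constant. -/
noncomputable def feK (β : ℝ) (n : ℕ) : ℝ :=
  (max (Real.exp (2 * β) - 1) (Real.exp (2 * β) - 1)⁻¹) ^ n * 2 ^ n

theorem fe_p_pos {β : ℝ} (hβ : 0 < β) : 0 < Real.exp (2 * β) - 1 := by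
  have : 1 < Real.exp (2 * β) := by
    rw [Real.one_lt_exp_iff]
    linarith
  linarith

theorem fe_K_pos {β : ℝ} (hβ : 0 < β) (n : ℕ) : 0 < feK β n := by
  have h := fe_p_pos hβ
  have : 0 < max (Real.exp (2 * β) - 1) (Real.exp (2 * β) - 1)⁻¹ := lt_max_of_lt_left h
  unfold feK
  positivity

theorem fe_pow_le {p : ℝ} (hp : 0 < p) {a b n : ℕ} (h1 : a ≤ b + n) (h2 : b ≤ a + n) :
    p ^ a ≤ (max p p⁻¹) ^ n * p ^ b := by
  rcases le_total 1 p with h | h
  · have hm : p ≤ max p p⁻¹ := le_max_left _ _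
    calc p ^ a ≤ p ^ (b + n) := pow_le_pow_right₀ h h1
      _ = p ^ n * p ^ b := by rw [pow_add, mul_comm]
      _ ≤ (max p p⁻¹) ^ n * p ^ b := by gcongr
  · have hm : p⁻¹ ≤ max p p⁻¹ := le_max_right _ _
    have h3 : p ^ (a + n) ≤ p ^ b := pow_le_pow_of_le_one hp.le h h2
    calc p ^ a = (p⁻¹) ^ n * p ^ (a + n) := by
          rw [pow_add, inv_pow]
          field_simp
      _ ≤ (p⁻¹) ^ n * p ^ b := by gcongr
      _ ≤ (max p p⁻¹) ^ n * p ^ b := by gcongr

theorem fe_wW (hBR : ST_BR) {β : ℝ} (hβ : 0 < β) (Λ B : Finset (Ed d)) (η : Cfg d)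
    (T : Finset (Ed d)) : wW β Λ T ≤ feK β B.card * wW β Λ (feCh B η T) := by
  have hp := fe_p_pos hβ
  have h1 := fe_pow_le hp (fe_ch_card_ge (B := B) (η := η) (T := T))
    (fe_ch_card_le (B := B) (η := η) (T := T))
  have h2 : (2 : ℝ) ^ ncl le (op (exw Λ T)) ≤
      2 ^ B.card * 2 ^ ncl le (op (exw Λ (feCh B η T))) := by
    rw [← pow_add]
    refine pow_le_pow_right₀ (by norm_num) ?_
    have := fe_ncl_ch hBR Λ B η T
    omega
  have hM : 0 < max (Real.exp (2 * β) - 1) (Real.exp (2 * β) - 1)⁻¹ := lt_max_of_lt_left hp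
  unfold wW feK
  calc (Real.exp (2 * β) - 1) ^ T.card * 2 ^ ncl le (op (exw Λ T))
      ≤ ((max (Real.exp (2 * β) - 1) (Real.exp (2 * β) - 1)⁻¹) ^ B.card *
        (Real.exp (2 * β) - 1) ^ (feCh B η T).card) *
        (2 ^ B.card * 2 ^ ncl le (op (exw Λ (feCh B η T)))) := by
        refine mul_le_mul h1 h2 (by positivity) (by positivity)
    _ = _ := by ring

theorem fe_wW_nonneg {β : ℝ} (hβ : 0 < β) (Λ T : Finset (Ed d)) : 0 < wW β Λ T := by
  have hp := fe_p_pos hβ
  unfold wW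
  positivity

theorem fe_fin (hBR : ST_BR) {β : ℝ} (hβ : 0 < β) (Λ B : Finset (Ed d)) (hB : B ⊆ Λ) (η : Cfg d)
    (A : Set (Cfg d)) (hA : ∀ ω ω' : Cfg d, (∀ e ∉ B, ω e = ω' e) → (ω ∈ A ↔ ω' ∈ A)) :
    PW β Λ A ≤ (feK β B.card * 2 ^ B.card) * PW β Λ (A ∩ {ω | ∀ e ∈ B, ω e = η e}) := by
  classical
  set Eη : Set (Cfg d) := {ω | ∀ e ∈ B, ω e = η e} with hE
  let f : Finset (Ed d) → ℝ := fun U => (A ∩ Eη).indicator (fun _ => wW β Λ U) (exw Λ U)
  have hf0 : ∀ U, 0 ≤ f U := by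
    intro U
    refine indicator_nonneg (fun _ _ => (fe_wW_nonneg hβ Λ U).le) _
  have hK := fe_K_pos hβ B.card
  have h1 : ∀ T ∈ Λ.powerset, A.indicator (fun _ => wW β Λ T) (exw Λ T) ≤
      feK β B.card * f (feCh B η T) := by
    intro T hT
    by_cases hTA : exw Λ T ∈ A
    · have h2 : exw Λ (feCh B η T) ∈ A ∩ Eη := by
        refine ⟨(hA _ _ (fun e he => fe_exw_ch_of_not he)).2 hTA, fun e he => ?_⟩
        exact fe_exw_ch_of_mem hB he
      simp only [f]
      rw [indicator_of_mem hTA, indicator_of_mem h2]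
      exact fe_wW hBR hβ Λ B η T
    · rw [indicator_of_notMem hTA]
      exact mul_nonneg hK.le (hf0 _)
  have h2 : ∑ T ∈ Λ.powerset, f (feCh B η T) ≤ 2 ^ B.card * ∑ U ∈ Λ.powerset, f U := by
    rw [← Finset.sum_fiberwise_of_maps_to (s := Λ.powerset) (t := Λ.powerset) (g := feCh B η)
      (fun T hT => by
        rw [Finset.mem_powerset] at hT ⊢
        exact fe_ch_subset hB hT) (fun T => f (feCh B η T)), Finset.mul_sum]
    refine Finset.sum_le_sum fun U _ => ?_
    have h3 : ∑ T ∈ Λ.powerset with feCh B η T = U, f (feCh B η T) =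
        ((Λ.powerset.filter (fun T => feCh B η T = U)).card : ℝ) * f U := by
      rw [Finset.sum_congr rfl (g := fun _ => f U), Finset.sum_const, nsmul_eq_mul]
      intro T hT
      rw [Finset.mem_filter] at hT
      rw [hT.2]
    rw [h3]
    refine mul_le_mul_of_nonneg_right ?_ (hf0 U)
    exact_mod_cast fe_fiber U
  have h4 : ∑ T ∈ Λ.powerset, A.indicator (fun _ => wW β Λ T) (exw Λ T) ≤
      (feK β B.card * 2 ^ B.card) * ∑ U ∈ Λ.powerset, f U := by
    calc ∑ T ∈ Λ.powerset, A.indicator (fun _ => wW β Λ T) (exw Λ T)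
        ≤ ∑ T ∈ Λ.powerset, feK β B.card * f (feCh B η T) := Finset.sum_le_sum h1
      _ = feK β B.card * ∑ T ∈ Λ.powerset, f (feCh B η T) := by rw [Finset.mul_sum]
      _ ≤ feK β B.card * (2 ^ B.card * ∑ U ∈ Λ.powerset, f U) :=
        mul_le_mul_of_nonneg_left h2 hK.le
      _ = _ := by ring
  have hZ : 0 ≤ ∑ T ∈ Λ.powerset, wW β Λ T := Finset.sum_nonneg fun T _ => (fe_wW_nonneg hβ Λ T).le
  unfold PW
  rw [← mul_div_assoc]
  exact div_le_div_of_nonneg_right h4 hZ

/-! ## Infinite volume -/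

theorem fe_cyl (hBR : ST_BR) {β : ℝ} (hβ : 0 < β) {μ : Measure (Cfg d)} (hμ : IsFK β μ)
    (B : Finset (Ed d)) (η : Cfg d) (A : Set (Cfg d)) (hC : IsCyl A)
    (hA : ∀ ω ω' : Cfg d, (∀ e ∉ B, ω e = ω' e) → (ω ∈ A ↔ ω' ∈ A)) :
    μ.real A ≤ (feK β B.card * 2 ^ B.card) * μ.real (A ∩ {ω | ∀ e ∈ B, ω e = η e}) := by
  classical
  have hC2 : IsCyl (A ∩ {ω : Cfg d | ∀ e ∈ B, ω e = η e}) := by
    obtain ⟨F, hF⟩ := hC
    refine ⟨F ∪ B, fun ω ω' h => ?_⟩
    have h1 := hF ω ω' (fun e he => h e (Finset.mem_union_left _ he))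
    have h2 : (∀ e ∈ B, ω e = η e) ↔ (∀ e ∈ B, ω' e = η e) := by
      constructor
      · intro h3 e he
        rw [← h e (Finset.mem_union_right _ he)]
        exact h3 e he
      · intro h3 e he
        rw [h e (Finset.mem_union_right _ he)]
        exact h3 e he
    exact and_congr h1 h2
  refine le_of_tendsto_of_tendsto (hμ.2 A hC) ((hμ.2 _ hC2).const_mul _) ?_
  filter_upwards [eventually_ge_atTop B] with Λ hΛ
  exact fe_fin hBR hβ Λ B hΛ η A hA

open Classical in
/-- Close the edges of `B`. -/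
noncomputable def feCl (B : Finset (Ed d)) (ω : Cfg d) : Cfg d := fun e => if e ∈ B then false else ω e

theorem fe_cl_meas (B : Finset (Ed d)) : Measurable (feCl B) := by
  classical
  refine measurable_pi_lambda _ fun e => ?_
  by_cases h : e ∈ B
  · simp only [feCl, h, if_true]
    exact measurable_const
  · simp only [feCl, h, if_false]
    exact measurable_pi_apply e

theorem fe_approx_B {μ : Measure (Cfg d)} [IsFiniteMeasure μ] (B : Finset (Ed d))
    {A : Set (Cfg d)} (hAm : MeasurableSet A)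
    (hA : ∀ ω ω' : Cfg d, (∀ e ∉ B, ω e = ω' e) → (ω ∈ A ↔ ω' ∈ A)) {ε : ℝ≥0∞} (hε : 0 < ε) :
    ∃ C : Set (Cfg d), IsCyl C ∧ (∀ ω ω' : Cfg d, (∀ e ∉ B, ω e = ω' e) → (ω ∈ C ↔ ω' ∈ C)) ∧
      μ (C ∆ A) < ε := by
  classical
  obtain ⟨C, ⟨F, hF⟩, h⟩ := fe_approx (μ.map (feCl B)) hAm hε
  have hCm : MeasurableSet C := by
    have : C = ⋃ T ∈ F.powerset.filter (fun T => (fun e => decide (e ∈ T) : Cfg d) ∈ C),
        {ω : Cfg d | ∀ e ∈ F, ω e = decide (e ∈ T)} := by
      ext ω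
      simp only [mem_iUnion, Finset.mem_filter, Finset.mem_powerset, exists_prop]
      constructor
      · intro hω
        refine ⟨F.filter (fun e => ω e = true), ⟨Finset.filter_subset _ _, ?_⟩, ?_⟩
        · refine (hF ω _ (fun e he => ?_)).1 hω
          by_cases h2 : ω e = true <;> simp [he, h2]
        · intro e he
          by_cases h2 : ω e = true <;> simp [he, h2]
      · rintro ⟨T, ⟨_, hT⟩, h2⟩
        exact (hF ω _ (fun e he => h2 e he)).2 hT
    rw [this]
    refine Finset.measurableSet_biUnion _ fun T _ => ?_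
    have h3 : {ω : Cfg d | ∀ e ∈ F, ω e = decide (e ∈ T)} =
        ⋂ e ∈ F, {ω : Cfg d | ω e = decide (e ∈ T)} := by
      ext ω
      simp
    rw [h3]
    refine Finset.measurableSet_biInter _ fun e _ => ?_
    exact (measurable_pi_apply e) (measurableSet_singleton _)
  rw [Measure.map_apply (fe_cl_meas B) (hCm.symmDiff hAm)] at h
  have hAA : feCl B ⁻¹' A = A := by
    ext ω
    rw [mem_preimage]
    refine hA _ _ fun e he => ?_
    simp [feCl, he]
  refine ⟨feCl B ⁻¹' C, ⟨F, fun ω ω' h2 => ?_⟩, fun ω ω' h2 => ?_, ?_⟩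
  · rw [mem_preimage, mem_preimage]
    refine hF _ _ fun e he => ?_
    simp only [feCl]
    rw [h2 e he]
  · rw [mem_preimage, mem_preimage]
    have : feCl B ω = feCl B ω' := by
      funext e
      by_cases he : e ∈ B
      · simp [feCl, he]
      · simp [feCl, he, h2 e he]
    rw [this]
  · have h5 : feCl B ⁻¹' (C ∆ A) = (feCl B ⁻¹' C) ∆ A := by
      rw [preimage_symmDiff, hAA]
    rwa [h5] at h

theorem fe_real_le {μ : Measure (Cfg d)} [IsFiniteMeasure μ] {A C : Set (Cfg d)} {ε : ℝ}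
    (hε : 0 < ε) (h : μ (C ∆ A) < ENNReal.ofReal ε) :
    μ.real A ≤ μ.real C + ε ∧ ∀ E : Set (Cfg d), μ.real (C ∩ E) ≤ μ.real (A ∩ E) + ε := by
  have h1 : μ.real (C ∆ A) ≤ ε := by
    have h2 : μ.real (C ∆ A) ≤ (ENNReal.ofReal ε).toReal :=
      ENNReal.toReal_mono ENNReal.ofReal_ne_top h.le
    rwa [ENNReal.toReal_ofReal hε.le] at h2
  have key : ∀ X Y : Set (Cfg d), X \ Y ⊆ C ∆ A → μ.real X ≤ μ.real Y + ε := by
    intro X Y hXY
    have h3 : X ⊆ Y ∪ (C ∆ A) := by
      intro x hx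
      by_cases hy : x ∈ Y
      · exact Or.inl hy
      · exact Or.inr (hXY ⟨hx, hy⟩)
    calc μ.real X ≤ μ.real (Y ∪ (C ∆ A)) := measureReal_mono h3
      _ ≤ μ.real Y + μ.real (C ∆ A) := measureReal_union_le _ _
      _ ≤ μ.real Y + ε := by linarith
  refine ⟨key _ _ fun x hx => Or.inr ⟨hx.1, hx.2⟩, fun E => key _ _ fun x hx => Or.inl ⟨hx.1.1, ?_⟩⟩
  intro hxA
  exact hx.2 ⟨hxA, hx.1.2⟩

theorem st_FE (hBR : ST_BR) : ST_FE := by
  intro d β hβ μ hμ B
  have hprob := hμ.1
  have hK : 0 < feK β B.card * 2 ^ B.card := mul_pos (fe_K_pos hβ _) (by positivity)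
  refine ⟨(feK β B.card * 2 ^ B.card)⁻¹, inv_pos.2 hK, fun A hAm hA η => ?_⟩
  set K := feK β B.card * 2 ^ B.card with hKdef
  rw [inv_mul_le_iff₀ hK]
  refine le_of_forall_pos_le_add fun δ hδ => ?_
  have hε : 0 < δ / (1 + K) := by positivity
  obtain ⟨C, hC, hCB, h⟩ := fe_approx_B (μ := μ) B hAm hA (ENNReal.ofReal_pos.2 hε)
  obtain ⟨h1, h2⟩ := fe_real_le hε h
  have h3 := fe_cyl hBR hβ hμ B η C hC hCB
  have h4 := h2 {ω | ∀ e ∈ B, ω e = η e}
  have h5 : K * μ.real (C ∩ {ω | ∀ e ∈ B, ω e = η e}) ≤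
      K * (μ.real (A ∩ {ω | ∀ e ∈ B, ω e = η e}) + δ / (1 + K)) :=
    mul_le_mul_of_nonneg_left h4 hK.le
  have h6 : δ / (1 + K) + K * (δ / (1 + K)) = δ := by field_simp
  calc μ.real A ≤ μ.real C + δ / (1 + K) := h1
    _ ≤ K * μ.real (C ∩ {ω | ∀ e ∈ B, ω e = η e}) + δ / (1 + K) := by linarith
    _ ≤ K * (μ.real (A ∩ {ω | ∀ e ∈ B, ω e = η e}) + δ / (1 + K)) + δ / (1 + K) := by linarith
    _ = K * μ.real (A ∩ {ω | ∀ e ∈ B, ω e = η e}) + δ := by
      rw [mul_add]
      linarith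

end IIC
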